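import Pool.Agent.H753R3.LM.Stmts

/-! Task T2 (plateau lemma) of project H753-LM. -/

set_option autoImplicit false

namespace Pool.Agent.H421R3.LMT2

open Topology Filter Set
open Pool.Agent.H753R3.LM

section chain

variable {G : Type} [AddCommGroup G] {V : ℕ → Set G}

lemma chain_anti (hV : Chain V) {n m : ℕ} (h : n ≤ m) : V m ⊆ V n := by
  induction h with
  | refl => exact Subset.rfl
  | step _ ih =>
    intro x hx
    apply ih
    have := hV.add _ x hx 0 (hV.zero _)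
    rwa [add_zero] at this

lemma chain_nsmul (hV : Chain V) : ∀ (j n : ℕ) (x : G), x ∈ V (n + j) → ∀ a : ℕ, a ≤ 2 ^ j →
    a • x ∈ V n := by
  intro j
  induction j with
  | zero =>
    intro n x hx a ha
    rw [pow_zero] at ha
    interval_cases a
    · rw [zero_smul]; exact hV.zero n
    · rw [one_smul]; exact hx
  | succ j ih =>
    intro n x hx a ha
    have hx' : x ∈ V (n + 1 + j) := by
      have : n + 1 + j = n + (j + 1) := by ring
      rwa [this]
    have h1 : a / 2 ≤ 2 ^ j := by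
      rw [pow_succ] at ha
      omega
    have h2 : a - a / 2 ≤ 2 ^ j := by
      rw [pow_succ] at ha
      omega
    have h3 := hV.add n _ (ih (n + 1) x hx' _ h1) _ (ih (n + 1) x hx' _ h2)
    rw [← add_smul] at h3
    have h4 : a / 2 + (a - a / 2) = a := by omega
    rwa [h4] at h3

lemma chain_zsmul (hV : Chain V) (n : ℕ) (b : ℤ) (x : G) (hx : x ∈ V (n + b.natAbs)) :
    b • x ∈ V n := by
  have h1 : b.natAbs • x ∈ V n := chain_nsmul hV b.natAbs n x hx _ (Nat.lt_two_pow_self).le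
  rcases Int.natAbs_eq b with h | h
  · rw [h, natCast_zsmul]; exact h1
  · rw [h, neg_smul, natCast_zsmul]; exact hV.neg n _ h1

end chain

section sums

variable {G : Type} [AddCommGroup G] [TopologicalSpace G] [IsTopologicalAddGroup G]

/-- `i`-fold sums of elements of `W` -/
def T (W : Set G) : ℕ → Set G
  | 0 => {0}
  | i + 1 => {x | ∃ t ∈ T W i, ∃ w ∈ W, x = t + w}

omit [TopologicalSpace G] [IsTopologicalAddGroup G] in
lemma T_mono {W W' : Set G} (h : W ⊆ W') : ∀ i, T W i ⊆ T W' i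
  | 0 => Subset.rfl
  | i + 1 => by
    rintro x ⟨t, ht, w, hw, rfl⟩
    exact ⟨t, T_mono h i ht, w, h hw, rfl⟩

omit [TopologicalSpace G] [IsTopologicalAddGroup G] in
lemma zero_mem_T {W : Set G} (h : (0 : G) ∈ W) : ∀ i, (0 : G) ∈ T W i
  | 0 => rfl
  | i + 1 => ⟨0, zero_mem_T h i, 0, h, (add_zero 0).symm⟩

lemma exists_add_subset {U : Set G} (hU : U ∈ 𝓝 (0 : G)) :
    ∃ U' ∈ 𝓝 (0 : G), ∀ x ∈ U', ∀ y ∈ U', x + y ∈ U := by
  have h : Tendsto (fun p : G × G => p.1 + p.2) (𝓝 (0, 0)) (𝓝 0) := by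
    have := (continuous_add (M := G)).tendsto (0, 0)
    simpa using this
  have h2 := h hU
  rw [nhds_prod_eq, Filter.mem_map, Filter.mem_prod_self_iff] at h2
  obtain ⟨U', hU', h3⟩ := h2
  exact ⟨U', hU', fun x hx y hy => h3 (mk_mem_prod hx hy)⟩

lemma exists_T_subset : ∀ (N : ℕ) (U : Set G), U ∈ 𝓝 (0 : G) →
    ∃ W ∈ 𝓝 (0 : G), ∀ i ≤ N, T W i ⊆ U := by
  intro N
  induction N with
  | zero =>
    intro U hU
    refine ⟨univ, univ_mem, ?_⟩
    intro i hi
    obtain rfl : i = 0 := by omega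
    rintro x hx
    rw [show x = 0 from hx]
    exact mem_of_mem_nhds hU
  | succ N ih =>
    intro U hU
    obtain ⟨U', hU', h⟩ := exists_add_subset hU
    obtain ⟨W, hW, hT⟩ := ih U' hU'
    refine ⟨W ∩ U', inter_mem hW hU', ?_⟩
    intro i hi
    cases i with
    | zero =>
      rintro x hx
      rw [show x = 0 from hx]
      exact mem_of_mem_nhds hU
    | succ i =>
      rintro x ⟨t, ht, w, hw, rfl⟩
      exact h _ (hT i (by omega) (T_mono inter_subset_left i ht)) _ hw.2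

end sums

lemma sml_mono {G : Type} [AddCommGroup G] {A B U U' : Set G} (hA : A ⊆ B) (hU : U ⊆ U')
    (h : Sml B U) : Sml A U' := by
  obtain ⟨F, hF⟩ := h
  refine ⟨F, fun x hx => ?_⟩
  obtain ⟨f, hf, h2⟩ := hF x (hA hx)
  exact ⟨f, hf, hU h2⟩

theorem taskT2 : TaskT2 := by
  classical
  intro G _ _ _ V hV U hU
  by_cases hb : ∀ S ∈ 𝓝 (0 : G), ∃ m : ℕ, 0 < m ∧ ∃ n, Sml (mul (m : ℤ) (V n)) S
  · obtain ⟨U1, hU1, hadd⟩ := exists_add_subset hU
    let N := Nat.find (hb U1 hU1)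
    have hN : 0 < N ∧ ∃ n, Sml (mul (N : ℤ) (V n)) U1 := Nat.find_spec (hb U1 hU1)
    obtain ⟨W, hW, hT⟩ := exists_T_subset N U1 hU1
    have hW0 : (0 : G) ∈ W := mem_of_mem_nhds hW
    let S : ℕ → Set G := fun i => {x | ∃ u ∈ U1, ∃ t ∈ T W i, x = u + t}
    have hUS : ∀ i, U1 ⊆ S i := fun i u hu => ⟨u, hu, 0, zero_mem_T hW0 i, (add_zero u).symm⟩
    have hSn : ∀ i, S i ∈ 𝓝 (0 : G) := fun i => mem_of_superset hU1 (hUS i)
    have hSs : ∀ i, S i ⊆ S (i + 1) := by
      rintro i x ⟨u, hu, t, ht, rfl⟩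
      exact ⟨u, hu, t, ⟨t, ht, 0, hW0, (add_zero t).symm⟩, rfl⟩
    have hSU : ∀ i ≤ N, S i ⊆ U := by
      rintro i hi x ⟨u, hu, t, ht, rfl⟩
      exact hadd u hu t (hT i hi ht)
    have hSW : ∀ i, ∀ s ∈ S i, ∀ w ∈ W, w + s ∈ S (i + 1) := by
      rintro i s ⟨u, hu, t, ht, rfl⟩ w hw
      exact ⟨u, hu, t + w, ⟨t, ht, w, hw, rfl⟩, by abel⟩
    let f : ℕ → ℕ := fun i => Nat.find (hb (S i) (hSn i))
    have hf : ∀ i, 0 < f i ∧ ∃ n, Sml (mul (f i : ℤ) (V n)) (S i) :=
      fun i => Nat.find_spec (hb (S i) (hSn i))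
    have hfmin : ∀ (i m : ℕ), (0 < m ∧ ∃ n, Sml (mul (m : ℤ) (V n)) (S i)) → f i ≤ m :=
      fun i m hm => Nat.find_min' (hb (S i) (hSn i)) hm
    have hf0 : f 0 ≤ N := by
      apply hfmin
      obtain ⟨h1, n, h2⟩ := hN
      exact ⟨h1, n, sml_mono Subset.rfl (hUS 0) h2⟩
    have hfa : ∀ i, f (i + 1) ≤ f i := by
      intro i
      apply hfmin
      obtain ⟨h1, n, h2⟩ := hf i
      exact ⟨h1, n, sml_mono Subset.rfl (hSs i) h2⟩
    have hex : ∃ i < N, f (i + 1) = f i := by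
      by_contra hc
      push Not at hc
      have h1 : ∀ i ≤ N, f i + i ≤ N := by
        intro i
        induction i with
        | zero => intro _; simpa using hf0
        | succ i ih =>
          intro hi
          have h2 := ih (by omega)
          have h3 := hfa i
          have h4 := hc i (by omega)
          omega
      have h2 := h1 N le_rfl
      have h3 := (hf N).1
      omega
    obtain ⟨i, hiN, hi⟩ := hex
    set d : ℕ := f i with hd
    obtain ⟨hdpos, n0, hn0⟩ := hf i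
    rw [← hd] at hdpos hn0
    -- the neighbourhood `W'`
    obtain ⟨W', hW', hWW⟩ : ∃ W' ∈ 𝓝 (0 : G), ∀ a < d, ∀ w ∈ W', a • w ∈ W := by
      refine ⟨⋂ a ∈ Finset.range d, (fun x : G => a • x) ⁻¹' W, ?_, ?_⟩
      · rw [Filter.biInter_finset_mem]
        intro a _
        have h : Tendsto (fun x : G => a • x) (𝓝 0) (𝓝 (a • (0 : G))) :=
          (continuous_nsmul a).tendsto 0
        rw [smul_zero] at h
        exact h hW
      · intro a ha w hw
        simp only [mem_iInter, Finset.mem_range, mem_preimage] at hw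
        exact hw a ha
    refine ⟨(d : ℤ), by positivity, W', hW', n0 + 1 + d, n0, sml_mono Subset.rfl (hSU i hiN.le) hn0,
      ?_⟩
    intro m hm n hsml
    -- the gcd
    let e : ℕ := Int.gcd m d
    have hepos : 0 < e := by
      apply Nat.pos_of_ne_zero
      intro h0
      have := Int.gcd_eq_zero_iff.1 h0
      omega
    have hed : e < d := by
      have h1 : (e : ℤ) ∣ d := Int.gcd_dvd_right m d
      have h2 : (e : ℤ) ∣ m := Int.gcd_dvd_left m d
      have h3 : e ∣ d := by exact_mod_cast h1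
      refine lt_of_le_of_ne (Nat.le_of_dvd hdpos h3) ?_
      intro h4
      apply hm
      rwa [h4] at h2
    obtain ⟨a, had, b, hab⟩ : ∃ a : ℕ, a < d ∧ ∃ b : ℤ, (e : ℤ) = a * m + b * d := by
      have h1 : (e : ℤ) = m * Int.gcdA m d + d * Int.gcdB m d := Int.gcd_eq_gcd_ab m d
      have hd0 : (d : ℤ) ≠ 0 := by omega
      refine ⟨(Int.gcdA m d % d).toNat, ?_, Int.gcdB m d + m * (Int.gcdA m d / d), ?_⟩
      · have h2 := Int.emod_lt_of_pos (Int.gcdA m d) (show (0 : ℤ) < d by omega)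
        have h3 := Int.emod_nonneg (Int.gcdA m d) hd0
        omega
      · rw [Int.toNat_of_nonneg (Int.emod_nonneg _ hd0), h1]
        have h4 := Int.emod_add_mul_ediv (Int.gcdA m d) d
        calc m * Int.gcdA m d + d * Int.gcdB m d
            = m * (Int.gcdA m d % d + d * (Int.gcdA m d / d)) + d * Int.gcdB m d := by rw [h4]
          _ = _ := by ring
    obtain ⟨F, hF⟩ := hsml
    obtain ⟨F2, hF2⟩ := hn0
    have hcontra : Sml (mul (e : ℤ) (V (max n (n0 + 1 + b.natAbs)))) (S (i + 1)) := by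
      refine ⟨(F ×ˢ F2).image fun p => a • p.1 + p.2, ?_⟩
      rintro y ⟨x, hx, rfl⟩
      have hx1 : x ∈ V n := chain_anti hV (le_max_left _ _) hx
      have hx2 : b • x ∈ V (n0 + 1) :=
        chain_zsmul hV (n0 + 1) b x (chain_anti hV (le_max_right _ _) hx)
      obtain ⟨g, hg, w, hw, v, hv, hgw⟩ := hF (m • x) ⟨x, hx1, rfl⟩
      have hav : a • v ∈ V (n0 + 1) :=
        chain_nsmul hV d (n0 + 1) v hv a (had.le.trans (Nat.lt_two_pow_self).le)
      obtain ⟨g2, hg2, hs⟩ := hF2 ((d : ℤ) • (a • v + b • x)) ⟨_, hV.add n0 _ hav _ hx2, rfl⟩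
      refine ⟨a • g + g2, Finset.mem_image.2 ⟨(g, g2), Finset.mem_product.2 ⟨hg, hg2⟩, rfl⟩, ?_⟩
      have hmem := hSW i _ hs (a • w) (hWW a had w hw)
      convert hmem using 1
      have h1 : m • x = g + w + (d : ℤ) • v := by
        rw [sub_eq_iff_eq_add] at hgw
        rw [hgw]; abel
      have h2 : (e : ℤ) • x = a • (m • x) + (d : ℤ) • (b • x) := by
        rw [hab, add_smul, mul_smul, natCast_zsmul, mul_comm, mul_smul]
      rw [h2, h1, smul_add, smul_add, smul_add]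
      have h3 : a • ((d : ℤ) • v) = (d : ℤ) • (a • v) := smul_comm _ _ _
      rw [h3]
      abel
    have := hfmin (i + 1) e ⟨hepos, _, hcontra⟩
    rw [hi] at this
    omega
  · push Not at hb
    obtain ⟨Ua, hUa, h⟩ := hb
    refine ⟨0, le_rfl, Ua, hUa, 0, 0, ⟨{0}, ?_⟩, ?_⟩
    · rintro x ⟨v, _, rfl⟩
      refine ⟨0, Finset.mem_singleton_self 0, ?_⟩
      rw [zero_smul, sub_zero]
      exact mem_of_mem_nhds hU
    · intro m hm n hsml
      have hm0 : m ≠ 0 := fun h0 => hm (h0 ▸ dvd_refl _)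
      have hY : Y Ua 0 (V 0) ⊆ Ua := by
        rintro x ⟨w, hw, v, _, rfl⟩
        rwa [zero_smul, add_zero]
      refine h m.natAbs (Int.natAbs_pos.2 hm0) n (sml_mono ?_ hY hsml)
      rintro x ⟨v, hv, rfl⟩
      rcases Int.natAbs_eq m with h1 | h1
      · exact ⟨v, hv, by rw [← h1]⟩
      · refine ⟨-v, hV.neg n v hv, ?_⟩
        conv_rhs => rw [h1]
        rw [neg_smul_neg]

end Pool.Agent.H421R3.LMT2
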